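import Pool.Agent.N634.WP.Main

/-!
MP_de5eaa_nt: the Wilson primes of different orders.
-/

set_option autoImplicit false

namespace Pool.Agent.Results.MP_de5eaa_nt.OrdersOfWilsonPrimes

open Pool.Agent.N634.WP Filter
open scoped Classical

/-- `IsWilson p n`: the prime `p ≥ n ≥ 1` is a Wilson prime of order `n`, that is
`(n - 1)! (p - n)! ≡ (-1) ^ n` modulo `p ^ 2`; `cnt n x` is the number of the Wilson primes of order
`n` up to `x`, and `prm x` is the number of primes up to `x`.

(0) The Wilson primes of order `1` are the Wilson primes.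

(1) For `1 ≤ n < m` at most `m - n - 1` primes are Wilson primes of both orders `n` and `m`.

(2) For every finite set `A` of orders `n ≤ N` and all `x` the sum over the `n` in `A` of the numbers of
the Wilson primes of order `n` up to `x` is at most `π(x) + binomial(N, 3)`.

(3) For every `c > 0` there are at most `1 / c` orders `n` for which the proportion of the Wilson primes
of order `n` among the primes up to `x` is at least `c` for all large `x`.

(4) For all orders with at most one exception there are infinitely many primes which are not Wilson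
primes of this order. -/
theorem result :
    (∀ p : ℕ, IsWilson p 1 ↔ p.Prime ∧ p ^ 2 ∣ (p - 1).factorial + 1) ∧
    (∀ n m : ℕ, 1 ≤ n → n < m → {p : ℕ | IsWilson p n ∧ IsWilson p m}.Finite ∧
      {p : ℕ | IsWilson p n ∧ IsWilson p m}.ncard ≤ m - n - 1) ∧
    (∀ (A : Finset ℕ) (N x : ℕ), (∀ n ∈ A, 1 ≤ n ∧ n ≤ N) →
      ∑ n ∈ A, cnt n x ≤ prm x + N.choose 3) ∧
    (∀ c : ℝ, 0 < c →
      {n : ℕ | 1 ≤ n ∧ ∀ᶠ x : ℕ in atTop, c * prm x ≤ cnt n x}.Finite ∧
      c * ({n : ℕ | 1 ≤ n ∧ ∀ᶠ x : ℕ in atTop, c * prm x ≤ cnt n x}.ncard : ℝ) ≤ 1) ∧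
    ∀ n m : ℕ, 1 ≤ n → 1 ≤ m → {p : ℕ | p.Prime ∧ ¬ IsWilson p n}.Finite →
      {p : ℕ | p.Prime ∧ ¬ IsWilson p m}.Finite → n = m := by
  refine ⟨fun p => ?_, two_orders_set, sum_le, density, cofinite_unique⟩
  unfold IsWilson
  constructor
  · rintro ⟨hp, -, -, h⟩
    refine ⟨hp, ?_⟩
    have h1 : ((p : ℤ)) ^ 2 ∣ (((p - 1).factorial + 1 : ℕ) : ℤ) := by
      simpa using h
    exact_mod_cast h1
  · rintro ⟨hp, h⟩
    refine ⟨hp, le_rfl, hp.one_lt.le, ?_⟩
    have h1 : ((p : ℤ)) ^ 2 ∣ (((p - 1).factorial + 1 : ℕ) : ℤ) := by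
      exact_mod_cast h
    simpa using h1

end Pool.Agent.Results.MP_de5eaa_nt.OrdersOfWilsonPrimes
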